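import Pool.Agent.W544.PG.Defs4
import Pool.Agent.W417.K3.Fft2B
import Pool.Agent.W74.PG.HCT

/-! Project PG part 3, part (FF2): first fundamental theorem for products of orthogonal Lie
algebras, for a general block diagonal form. -/

set_option autoImplicit false

open Module Finset

namespace Pool.Agent.W410.PG.FF2

open Pool.Agent.W544.K3 Pool.Agent.W417.K3.Fft Pool.Agent.W417.K3.Fft2
open Pool.Agent.W417.K3.Fft2 (Rel Gens key Dep)

variable {n N k : ℕ}

variable (B : Matrix (Fin n) (Fin n) ℚ) (c : Fin n → Fin N)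

/-- the matrix of a block -/
def BB (i : Fin N) : Matrix {a : Fin n // c a = i} {a : Fin n // c a = i} ℚ :=
  fun a b => B a.1 b.1

theorem BQ_extB (i : Fin N) (u v : {a : Fin n // c a = i} → ℚ) :
    BQ B (extB c i u) (extB c i v) = Matrix.toBilin' (BB B c i) u v := by
  rw [BQ, Matrix.toBilin'_apply, Matrix.toBilin'_apply,
    sum_block c i _ (fun x hx => by
      refine sum_eq_zero fun y _ => ?_
      rw [extB_zero c i u x hx, zero_mul, zero_mul])]
  refine sum_congr rfl fun x _ => ?_
  rw [sum_block c i _ (fun y hy => by rw [extB_zero c i v y hy, mul_zero])]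
  refine sum_congr rfl fun y _ => ?_
  rw [extB_val, extB_val]
  rfl

variable (hB : ∀ i j, B i j = B j i) (hblock : ∀ a b, c a ≠ c b → B a b = 0) (hdet : B.det ≠ 0)

include hblock hdet in
theorem block_nondeg (i : Fin N) (u : {a : Fin n // c a = i} → ℚ)
    (h : ∀ v, Matrix.toBilin' (BB B c i) u v = 0) : u = 0 := by
  have h1 : ∀ b, ∑ a, (extB c i u a) * B a b = 0 := by
    intro b
    by_cases hb : c b = i
    · have h2 := h (Pi.single ⟨b, hb⟩ 1)
      rw [Matrix.toBilin'_apply] at h2
      rw [sum_block c i _ (fun x hx => by rw [extB_zero c i u x hx, zero_mul])]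
      rw [← h2]
      refine sum_congr rfl fun a _ => ?_
      rw [Finset.sum_eq_single (⟨b, hb⟩ : {a : Fin n // c a = i})]
      · rw [extB_val, Pi.single_eq_same, mul_one]
        rfl
      · intro y _ hy
        rw [Pi.single_eq_of_ne hy, mul_zero]
      · intro h
        exact absurd (mem_univ _) h
    · refine sum_eq_zero fun a _ => ?_
      by_cases ha : c a = i
      · rw [hblock a b (by rw [ha]; exact Ne.symm hb), mul_zero]
      · rw [extB_zero c i u a ha, zero_mul]
  have h2 : extB c i u = 0 := by
    apply Matrix.eq_zero_of_vecMul_eq_zero hdet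
    funext b
    exact h1 b
  funext a
  have h4 := congrFun h2 a.1
  rw [extB_val] at h4
  exact h4

include hB hblock hdet in
theorem exists_block_basis :
    ∃ q : Basis (Fin n) ℚ (Fin n → ℚ), (∀ a x, c x ≠ c a → q a x = 0) ∧
      (∀ a b, a ≠ b → BQ B (q a) (q b) = 0) ∧ ∀ a, BQ B (q a) (q a) ≠ 0 := by
  choose q hq1 hq2 using fun i => exists_basis_type (BB B c i) (fun a b => hB a.1 b.1)
    (block_nondeg B c hblock hdet i)
  let Q : Fin n → Fin n → ℚ := fun a => extB c (c a) (q (c a) ⟨a, rfl⟩)
  have hQ : ∀ (a : Fin n) (i : Fin N) (h : c a = i), Q a = extB c i (q i ⟨a, h⟩) := by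
    intro a i h
    subst h
    rfl
  have h1 : ∀ a x, c x ≠ c a → Q a x = 0 := fun a x h => extB_zero c _ _ x h
  have h2 : ∀ a b, a ≠ b → BQ B (Q a) (Q b) = 0 := by
    intro a b hab
    by_cases h : c b = c a
    · rw [hQ b _ h]
      change BQ B (extB c (c a) (q (c a) ⟨a, rfl⟩)) _ = 0
      rw [BQ_extB]
      exact hq1 _ _ _ (fun h' => hab (congrArg Subtype.val h'))
    · rw [BQ, Matrix.toBilin'_apply]
      refine sum_eq_zero fun x _ => sum_eq_zero fun y _ => ?_
      by_cases hx : c x = c a
      · by_cases hy : c y = c b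
        · rw [hblock x y (by rw [hx, hy]; exact Ne.symm h), mul_zero, zero_mul]
        · rw [h1 b y hy, mul_zero]
      · rw [h1 a x hx, zero_mul, zero_mul]
  have h3 : ∀ a, BQ B (Q a) (Q a) ≠ 0 := by
    intro a
    change BQ B (extB c (c a) (q (c a) ⟨a, rfl⟩))
      (extB c (c a) (q (c a) ⟨a, rfl⟩)) ≠ 0
    rw [BQ_extB]
    exact hq2 _ _
  rcases isEmpty_or_nonempty (Fin n) with he | he
  · exact ⟨Pi.basisFun ℚ (Fin n), fun a => he.elim a, fun a => he.elim a, fun a => he.elim a⟩
  · have hli : LinearIndependent ℚ Q :=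
      LinearMap.linearIndependent_of_isOrthoᵢ (B := BQ B)
        (LinearMap.isOrthoᵢ_def.mpr h2) h3
    refine ⟨basisOfLinearIndependentOfCardEqFinrank hli (by simp), ?_, ?_, ?_⟩ <;>
      rw [coe_basisOfLinearIndependentOfCardEqFinrank]
    · exact h1
    · exact h2
    · exact h3

/-! ### The relation -/

include hblock in
theorem bilR_block (i : Fin N) (u v : Fin n → ℝ) (hu : ∀ a, c a ≠ i → u a = 0)
    (hv : ∀ a, c a = i → v a = 0) : bilR B u v = 0 := by
  rw [bilR_apply]
  refine sum_eq_zero fun x _ => sum_eq_zero fun y _ => ?_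
  by_cases hx : c x = i
  · by_cases hy : c y = i
    · rw [hv y hy, mul_zero]
    · rw [hblock x y (by rw [hx]; exact Ne.symm hy), Rat.cast_zero, mul_zero, zero_mul]
  · rw [hu x hx, zero_mul, zero_mul]

/-- the matrix of the form of a block -/
def blkM (i : Fin N) : Matrix (Fin n) (Fin n) ℚ := fun a b => if c a = i then B a b else 0

theorem blkM_apply (i : Fin N) (u v : Fin n → ℚ) :
    Matrix.toBilin' (blkM B c i) u v =
      ∑ x, ∑ y, u x * (if c x = i then B x y else 0) * v y :=
  Matrix.toBilin'_apply _ _ _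

include hB hblock hdet in
theorem fftG (t : (Fin k → Fin n) → ℚ)
    (ht : ∀ (i : Fin N) (u v : Fin n → ℚ), (∀ x, c x ≠ i → u x = 0) → (∀ x, c x ≠ i → v x = 0) →
      Kills (wedge (bilR B) (cv u) (cv v)) (formR t))
    (hsupp : ∀ J, t J ≠ 0 → ∀ i, (univ.filter fun j => c (J j) = i).card <
      (univ.filter fun a => c a = i).card) :
    t ∈ Submodule.span ℚ {s : (Fin k → Fin n) → ℚ |
      ∃ (σ : Fin k → Fin k) (κ : Fin k → Fin N), (∀ j, σ (σ j) = j) ∧
      (∀ j, σ j ≠ j) ∧
      ∀ J, s J = ∏ j with j < σ j, if c (J j) = κ j then B (J j) (J (σ j)) else 0} := by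
  classical
  obtain ⟨q, hq0, hq1, hq2⟩ := exists_block_basis B c hB hblock hdet
  obtain ⟨d, hd, hD⟩ : ∃ d : Fin n → ℚ, (∀ a, d a ≠ 0) ∧
      ∀ a b, BQ B (q a) (q b) = if a = b then d a else 0 := by
    refine ⟨fun a => BQ B (q a) (q a), hq2, fun a b => ?_⟩
    split_ifs with h
    · rw [h]
    · exact hq1 a b h
  -- the coefficients in the basis
  let c0 : (Fin k → Fin n) → ℚ := fun J => formQ t (fun j => q (J j))
  have hrel : Rel c d univ c0 := by
    intro a b hab hcl J
    have hkill : Kills (wedge (bilR B) (cv (q a)) (cv (q b))) (formR t) :=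
      ht (c a) (q a) (q b) (fun x hx => hq0 a x hx)
        (fun x hx => hq0 b x (by rw [← hcl]; exact hx))
    have h := relation' B t (q a) (q b) hkill (fun j => q (J j))
    have h2 : ∀ (j : Fin k) (x : Fin n), Function.update (fun j => q (J j)) j (q x) =
        fun i => q (Function.update J j x i) := by
      intro j x
      exact (Function.comp_update q J j x).symm
    simp only [h2, hD] at h
    rw [sum_filter, sum_filter]
    refine Eq.trans ?_ (h.trans ?_)
    · refine sum_congr rfl fun j _ => ?_
      by_cases hj : J j = a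
      · rw [if_pos hj, if_pos hj.symm]
      · rw [if_neg hj, if_neg (Ne.symm hj), zero_mul]
    · refine sum_congr rfl fun j _ => ?_
      by_cases hj : J j = b
      · rw [if_pos hj, if_pos hj.symm]
      · rw [if_neg hj, if_neg (Ne.symm hj), zero_mul]
  have hsupp0 : ∀ J, c0 J ≠ 0 → ∀ i, (univ.filter fun j => c (J j) = i).card <
      (univ.filter fun a => c a = i).card := by
    intro J hJ i
    have h1 : formQ t (fun j => q (J j)) ≠ 0 := hJ
    rw [formQ_apply] at h1
    obtain ⟨I, -, hI⟩ := Finset.exists_ne_zero_of_sum_ne_zero h1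
    have h2 : t I ≠ 0 := fun h => hI (by rw [h, zero_mul])
    have h3 : ∀ j, c (I j) = c (J j) := by
      intro j
      by_contra h
      apply hI
      rw [Finset.prod_eq_zero (mem_univ j) (hq0 (J j) (I j) h), mul_zero]
    have h4 := hsupp I h2 i
    simp only [h3] at h4
    exact h4
  -- decomposition into patterns
  let cf : (Fin k → Fin N) → (Fin k → Fin n) → ℚ := fun f J =>
    if (fun j => c (J j)) = f then c0 J else 0
  have hc0 : c0 = ∑ f, cf f := by
    funext J
    rw [Finset.sum_apply]
    simp only [cf]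
    rw [Finset.sum_ite_eq, if_pos (mem_univ _)]
  have hkey : c0 ∈ Submodule.span ℚ (Gens c d univ) := by
    rw [hc0]
    refine Submodule.sum_mem _ fun f _ => ?_
    by_cases hz : cf f = 0
    · rw [hz]
      exact Submodule.zero_mem _
    obtain ⟨J1, hJ1⟩ := Function.ne_iff.mp hz
    have hJ1' : (fun j => c (J1 j)) = f := by
      by_contra h
      apply hJ1
      simp only [cf]
      rw [if_neg h]
      rfl
    have hJ1'' : c0 J1 ≠ 0 := by
      intro h
      apply hJ1
      simp only [cf]
      rw [if_pos hJ1', h]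
      rfl
    refine key c d hd f univ (fun j _ => ?_) (cf f) ?_ ?_ ?_
    · have h1 := hsupp0 J1 hJ1'' (f j)
      have h2 : ∀ l, c (J1 l) = f l := fun l => congrFun hJ1' l
      simp only [h2] at h1
      exact h1
    · intro J J' h
      have : J = J' := funext fun j => h j (mem_univ _)
      rw [this]
    · intro a b hab hcl J
      have hpat : ∀ (l : Fin k) (x : Fin n), c x = c (J l) →
          cf f (Function.update J l x) =
            if (fun j => c (J j)) = f then c0 (Function.update J l x) else 0 := by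
        intro l x hx
        simp only [cf]
        have : (fun j => c (Function.update J l x j)) = fun j => c (J j) := by
          funext j
          by_cases hj : j = l
          · subst hj
            rw [Function.update_self, hx]
          · rw [Function.update_of_ne hj]
        rw [this]
      have e1 : ∑ j ∈ univ with J j = a, d a * cf f (Function.update J j b) =
          if (fun j => c (J j)) = f then
            ∑ j ∈ univ with J j = a, d a * c0 (Function.update J j b) else 0 := by
        split_ifs with h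
        · refine sum_congr rfl fun j hj => ?_
          rw [hpat j b (by rw [(mem_filter.mp hj).2, hcl]), if_pos h]
        · refine sum_eq_zero fun j hj => ?_
          rw [hpat j b (by rw [(mem_filter.mp hj).2, hcl]), if_neg h, mul_zero]
      have e2 : ∑ j ∈ univ with J j = b, d b * cf f (Function.update J j a) =
          if (fun j => c (J j)) = f then
            ∑ j ∈ univ with J j = b, d b * c0 (Function.update J j a) else 0 := by
        split_ifs with h
        · refine sum_congr rfl fun j hj => ?_
          rw [hpat j a (by rw [(mem_filter.mp hj).2, hcl]), if_pos h]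
        · refine sum_eq_zero fun j hj => ?_
          rw [hpat j a (by rw [(mem_filter.mp hj).2, hcl]), if_neg h, mul_zero]
      rw [e1, e2, hrel a b hab hcl J]
    · intro J hJ j _
      by_contra h
      apply hJ
      simp only [cf]
      rw [if_neg]
      intro h'
      exact h (congrFun h' j)
  -- evaluation on the basis
  let bf : Fin N → (Fin n → ℚ) →ₗ[ℚ] (Fin n → ℚ) →ₗ[ℚ] ℚ := fun i =>
    Matrix.toBilin' (blkM B c i)
  have hbf : ∀ i a b, bf i (q a) (q b) = DB c d i a b := by
    intro i a b
    change Matrix.toBilin' (blkM B c i) (q a) (q b) = _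
    rw [blkM_apply]
    by_cases hi : c a = i
    · have h1 : ∑ x, ∑ y, q a x * (if c x = i then B x y else 0) * q b y = BQ B (q a) (q b) := by
        rw [BQ, Matrix.toBilin'_apply]
        refine sum_congr rfl fun x _ => sum_congr rfl fun y _ => ?_
        by_cases hx : c x = i
        · rw [if_pos hx]
        · rw [hq0 a x (by rw [hi]; exact hx), zero_mul, zero_mul, zero_mul, zero_mul]
      rw [h1, hD, DB]
      simp [hi]
    · rw [DB, if_neg (fun h => hi h.2)]
      refine sum_eq_zero fun x _ => sum_eq_zero fun y _ => ?_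
      by_cases hx : c x = i
      · rw [hq0 a x (by rw [hx]; exact Ne.symm hi), zero_mul, zero_mul]
      · rw [if_neg hx, mul_zero, zero_mul]
  let evq : MultilinearMap ℚ (fun _ : Fin k => (Fin n → ℚ)) ℚ →ₗ[ℚ] ((Fin k → Fin n) → ℚ) :=
    { toFun := fun T J => T (fun j => q (J j))
      map_add' := fun _ _ => rfl
      map_smul' := fun _ _ => rfl }
  have hinj : Function.Injective evq := by
    intro T T' h
    exact Basis.ext_multilinear (fun _ => q) fun J => congrFun h J
  let eve : MultilinearMap ℚ (fun _ : Fin k => (Fin n → ℚ)) ℚ →ₗ[ℚ] ((Fin k → Fin n) → ℚ) :=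
    { toFun := fun T J => T (fun j => Pi.single (J j) 1)
      map_add' := fun _ _ => rfl
      map_smul' := fun _ _ => rfl }
  let GG : Set (MultilinearMap ℚ (fun _ : Fin k => (Fin n → ℚ)) ℚ) :=
    {T | ∃ (σ : Fin k → Fin k) (κ : Fin k → Fin N) (h1 : ∀ j, σ (σ j) = j) (h2 : ∀ j, σ j ≠ j),
      T = Tσκ (fun j => bf (κ j)) σ h1 h2}
  have h1 : evq (formQ t) ∈ (Submodule.span ℚ GG).map evq := by
    rw [Submodule.map_span]
    refine Submodule.span_mono ?_ hkey
    rintro s ⟨σ, κ, hσ1, hσ2, -, hσ4⟩
    refine ⟨Tσκ (fun j => bf (κ j)) σ hσ1 (fun j => hσ2 j (mem_univ _)), ⟨σ, κ, hσ1, _, rfl⟩, ?_⟩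
    funext I
    rw [hσ4 I]
    refine (Tσκ_apply (fun j => bf (κ j)) σ hσ1 (fun j => hσ2 j (mem_univ _)) _).trans ?_
    refine prod_congr rfl fun j _ => ?_
    exact hbf _ _ _
  obtain ⟨T, hT, hT'⟩ := h1
  have h2 : formQ t ∈ Submodule.span ℚ GG := by
    rw [← hinj hT']
    exact hT
  have h3 : eve (formQ t) ∈ (Submodule.span ℚ GG).map eve := Submodule.mem_map_of_mem h2
  have h4 : eve (formQ t) = t := by
    funext I
    exact formQ_single t I
  rw [h4, Submodule.map_span] at h3
  refine Submodule.span_mono ?_ h3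
  rintro _ ⟨_, ⟨σ, κ, hσ1, hσ2, rfl⟩, rfl⟩
  refine ⟨σ, κ, hσ1, hσ2, fun I => ?_⟩
  refine (Tσκ_apply (fun j => bf (κ j)) σ hσ1 hσ2 _).trans ?_
  refine prod_congr rfl fun j _ => ?_
  exact Matrix.toBilin'_single _ _ _


/-- the result -/
theorem ff2 : Pool.Agent.W544.PG.S_ff2 := by
  intro n r k T c hBD t ht hsupp
  have hs : ∀ i j, T.Q i j = T.Q j i := fun i j => by
    have := congrFun (congrFun T.symm j) i
    rw [Matrix.transpose_apply] at this
    exact this
  refine fftG T.Q c hs hBD (Pool.Agent.W74.PG.det_ne T) t ?_ hsupp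
  intro i u v hu hv
  apply Pool.Agent.W74.PG.kills
  apply ht
  · exact Pool.Agent.W74.PG.skewC T.Q _ (wedge_skew _ (bilR_symm T.Q hs) _ _)
  · intro a b hab
    have hz : ∀ (w : Fin n → ℚ), (∀ x, c x ≠ i → w x = 0) → c b ≠ i →
        bilR T.Q (cv w) (Pi.single b 1) = 0 := by
      intro w hw hb
      rw [bilR_apply]
      refine sum_eq_zero fun x _ => sum_eq_zero fun y _ => ?_
      by_cases hx : c x = i
      · by_cases hy : y = b
        · subst hy
          rw [hBD x y (by rw [hx]; exact Ne.symm hb), Rat.cast_zero, mul_zero, zero_mul]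
        · rw [Pi.single_eq_of_ne hy, mul_zero]
      · simp only [cv]
        rw [hw x hx, Rat.cast_zero, zero_mul, zero_mul]
    rw [Matrix.map_apply, LinearMap.toMatrix'_apply, wedge_apply]
    by_cases hb : c b = i
    · have ha : c a ≠ i := fun h => hab (by rw [h, hb])
      simp only [Pi.sub_apply, Pi.smul_apply, cv, hu a ha, hv a ha, Rat.cast_zero, smul_zero,
        sub_zero, Complex.ofReal_zero]
    · rw [hz u hu hb, hz v hv hb]
      simp

end Pool.Agent.W410.PG.FF2
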