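import Pool.Agent.W410.PG.G2b

/-! Project PG part 2, part (G2): traceless invariant spaces of forms contain forms of top weight. -/

set_option autoImplicit false

open Matrix Finset Module

namespace Pool.Agent.W410.PG.G2

open Pool.Agent.W544.PG

noncomputable section

variable {n r p : ℕ}

lemma exists_xi (X : Matrix (Fin n) (Fin n) ℂ) (hX : Xᵀ = -X) (hX3 : X * X * X = X)
    (htr : (X * X).trace = 2 * p) (hrp : r ≤ p) :
    ∃ ξ : Fin r → Fin n → ℂ, LinearIndependent ℂ ξ ∧ ∀ i, X *ᵥ ξ i = -ξ i := by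
  have htr0 : X.trace = 0 := by
    have h1 : X.trace = -X.trace := by
      conv_lhs => rw [← Matrix.trace_transpose, hX, Matrix.trace_neg]
    have h2 : (2 : ℂ) * X.trace = 0 := by linear_combination h1
    simpa using h2
  set e : Matrix (Fin n) (Fin n) ℂ := (1 / 2 : ℂ) • (X * X - X) with he
  have hXe : X * e = -e := by
    rw [he, mul_smul_comm, mul_sub, ← mul_assoc, hX3, ← smul_neg]
    congr 1
    abel
  have hee : e * e = e := by
    conv_lhs => rw [he, smul_mul_assoc, sub_mul, mul_assoc X X, hXe, mul_neg, hXe]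
    module
  have htre : e.trace = p := by
    rw [he, Matrix.trace_smul, Matrix.trace_sub, htr, htr0, smul_eq_mul]
    ring
  have hidem : IsIdempotentElem (Matrix.toLin' e) := by
    show Matrix.toLin' e * Matrix.toLin' e = Matrix.toLin' e
    rw [Module.End.mul_eq_comp, ← Matrix.toLin'_mul, hee]
  have hproj := LinearMap.IsIdempotentElem.isProj_range (Matrix.toLin' e) hidem
  have hfr : (finrank ℂ (LinearMap.range (Matrix.toLin' e)) : ℂ) = p := by
    rw [← hproj.trace, Matrix.trace_toLin'_eq, htre]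
  have hfr' : finrank ℂ (LinearMap.range (Matrix.toLin' e)) = p := by exact_mod_cast hfr
  let b : Basis (Fin p) ℂ (LinearMap.range (Matrix.toLin' e)) :=
    Module.finBasisOfFinrankEq ℂ _ hfr'
  refine ⟨fun i => (b (Fin.castLE hrp i) : Fin n → ℂ), ?_, ?_⟩
  · have h1 := b.linearIndependent.comp (Fin.castLE hrp) (Fin.castLE_injective hrp)
    exact h1.map' (LinearMap.range (Matrix.toLin' e)).subtype (Submodule.ker_subtype _)
  · intro i
    obtain ⟨w, hw⟩ := (b (Fin.castLE hrp i)).2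
    show X *ᵥ ((b (Fin.castLE hrp i) : Fin n → ℂ)) = -(b (Fin.castLE hrp i) : Fin n → ℂ)
    rw [← hw, Matrix.toLin'_apply, Matrix.mulVec_mulVec, hXe, Matrix.neg_mulVec]

lemma exists_dual (ξ : Fin r → Fin n → ℂ) (h : LinearIndependent ℂ ξ) :
    ∃ η : Fin r → Fin n → ℂ, ∀ i j, ∑ x, η i x * ξ j x = if i = j then 1 else 0 := by
  have hinj := linearIndependent_iff_injective_fintypeLinearCombination.1 h
  obtain ⟨g, hg⟩ := LinearMap.exists_leftInverse_of_injective (Fintype.linearCombination ℂ ξ)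
    (LinearMap.ker_eq_bot.2 hinj)
  refine ⟨fun i x => g (Pi.single x 1) i, fun i j => ?_⟩
  have h1 : g (ξ j) = Pi.single j 1 := by
    have h2 := LinearMap.congr_fun hg (Pi.single j 1)
    rw [LinearMap.comp_apply, Fintype.linearCombination_apply_single, one_smul] at h2
    exact h2
  have h3 : ξ j = ∑ x, ξ j x • (Pi.single x (1 : ℂ) : Fin n → ℂ) := by
    funext y
    rw [Finset.sum_apply, sum_eq_single y]
    · simp
    · intro x _ hx
      simp [hx.symm]
    · simp
  have h4 : g (ξ j) i = ∑ x, g (Pi.single x 1) i * ξ j x := by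
    conv_lhs => rw [h3]
    rw [map_sum, Finset.sum_apply]
    apply sum_congr rfl
    intro x _
    rw [map_smul, Pi.smul_apply, smul_eq_mul, mul_comm]
  rw [← h4, h1, Pi.single_apply]

/-- decomposable forms -/
def dec (ξ : Fin r → Fin n → ℂ) (J : Fin r → Fin n) : ℂ := ∏ i, ξ i (J i)

lemma dec_update (ξ : Fin r → Fin n → ℂ) (J : Fin r → Fin n) (j : Fin r) (l : Fin n) :
    dec ξ (Function.update J j l) = ξ j l * ∏ i ∈ univ.erase j, ξ i (J i) := by
  unfold dec
  rw [← mul_prod_erase univ _ (mem_univ j), Function.update_self]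
  congr 1
  apply prod_congr rfl
  intro i hi
  rw [Function.update_of_ne (mem_erase.1 hi).1]

lemma act_dec (X : Matrix (Fin n) (Fin n) ℂ) (hX : Xᵀ = -X) (ξ : Fin r → Fin n → ℂ)
    (hξ : ∀ i, X *ᵥ ξ i = -ξ i) : act X (dec ξ) = (r : ℂ) • dec ξ := by
  have hX' : ∀ a b, X a b = - X b a := by
    intro a b
    have := congrFun (congrFun hX b) a
    simpa using this
  funext J
  unfold act
  have h1 : ∀ j, ∑ l, X l (J j) * dec ξ (Function.update J j l) = dec ξ J := by
    intro j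
    have h2 : ∑ l, X l (J j) * ξ j l = ξ j (J j) := by
      have h3 := congrFun (hξ j) (J j)
      rw [Matrix.mulVec, dotProduct, Pi.neg_apply] at h3
      rw [← neg_inj, ← h3, ← sum_neg_distrib]
      apply sum_congr rfl
      intro l _
      rw [hX' l]
      ring
    simp only [dec_update, ← mul_assoc]
    rw [← sum_mul, h2]
    unfold dec
    rw [mul_prod_erase univ (fun i => ξ i (J i)) (mem_univ j)]
  rw [sum_congr rfl (fun j _ => h1 j)]
  simp

lemma dec_trl (X : Matrix (Fin n) (Fin n) ℂ) (hX : Xᵀ = -X) (ξ : Fin r → Fin n → ℂ)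
    (hξ : ∀ i, X *ᵥ ξ i = -ξ i) : Trl (dec ξ) := by
  have hiso : ∀ a b, ∑ c, ξ a c * ξ b c = 0 := by
    intro a b
    have h1 : ξ a ⬝ᵥ (X *ᵥ ξ b) = -(ξ a ⬝ᵥ ξ b) := by rw [hξ, dotProduct_neg]
    have h2 : ξ a ⬝ᵥ (X *ᵥ ξ b) = ξ a ⬝ᵥ ξ b := by
      rw [Matrix.dotProduct_mulVec, ← Matrix.mulVec_transpose, hX, Matrix.neg_mulVec, hξ, neg_neg]
    have h3 : ξ a ⬝ᵥ ξ b = 0 := by
      have h4 : (2 : ℂ) * (ξ a ⬝ᵥ ξ b) = 0 := by linear_combination h1 - h2
      simpa using h4
    exact h3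
  intro a b hab J
  have h1 : ∀ c, dec ξ (Function.update (Function.update J a c) b c) =
      (ξ a c * ξ b c) * ∏ i ∈ (univ.erase b).erase a, ξ i (J i) := by
    intro c
    rw [dec_update, ← mul_prod_erase (univ.erase b) _ (mem_erase.2 ⟨hab, mem_univ a⟩),
      Function.update_self]
    have h2 : ∏ i ∈ (univ.erase b).erase a, ξ i (Function.update J a c i) =
        ∏ i ∈ (univ.erase b).erase a, ξ i (J i) := by
      apply prod_congr rfl
      intro i hi
      rw [Function.update_of_ne (mem_erase.1 hi).1]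
    rw [h2]
    ring
  rw [sum_congr rfl (fun c _ => h1 c), ← sum_mul, hiso, zero_mul]

lemma coef_zero (ξ η : Fin r → Fin n → ℂ)
    (hη : ∀ i j, ∑ x, η i x * ξ j x = if i = j then 1 else 0) (c : Equiv.Perm (Fin r) → ℂ)
    (h : ∀ K : Fin r → Fin n, ∑ τ : Equiv.Perm (Fin r), c τ * dec ξ (fun i => K (τ i)) = 0)
    (ρ : Equiv.Perm (Fin r)) : c ρ = 0 := by
  have h1 : ∑ K : Fin r → Fin n, (∏ i, η (ρ⁻¹ i) (K i)) *
      ∑ τ : Equiv.Perm (Fin r), c τ * dec ξ (fun i => K (τ i)) = 0 := by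
    apply sum_eq_zero
    intro K _
    rw [h K, mul_zero]
  have h2 : ∀ τ : Equiv.Perm (Fin r), ∑ K : Fin r → Fin n, (∏ i, η (ρ⁻¹ i) (K i)) *
      (c τ * dec ξ (fun i => K (τ i))) = if τ = ρ then c τ else 0 := by
    intro τ
    have h3 : ∀ K : Fin r → Fin n, (∏ i, η (ρ⁻¹ i) (K i)) * (c τ * dec ξ (fun i => K (τ i))) =
        c τ * ∏ i, (η (ρ⁻¹ i) (K i) * ξ (τ⁻¹ i) (K i)) := by
      intro K
      rw [prod_mul_distrib]
      have h4 : dec ξ (fun i => K (τ i)) = ∏ i, ξ (τ⁻¹ i) (K i) := by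
        unfold dec
        rw [← Equiv.prod_comp τ (fun i => ξ (τ⁻¹ i) (K i))]
        apply prod_congr rfl
        intro i _
        simp
      rw [h4]
      ring
    rw [sum_congr rfl (fun K _ => h3 K), ← mul_sum]
    have h5 : ∑ K : Fin r → Fin n, ∏ i, (η (ρ⁻¹ i) (K i) * ξ (τ⁻¹ i) (K i)) =
        ∏ i, ∑ x, η (ρ⁻¹ i) x * ξ (τ⁻¹ i) x := by
      rw [Finset.prod_univ_sum]
      simp
    rw [h5]
    split_ifs with hτ
    · subst hτ
      rw [prod_eq_one, mul_one]
      intro i _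
      rw [hη, if_pos rfl]
    · obtain ⟨i, hi⟩ : ∃ i, ρ⁻¹ i ≠ τ⁻¹ i := by
        by_contra hcon
        push Not at hcon
        apply hτ
        have : ρ⁻¹ = τ⁻¹ := Equiv.ext hcon
        exact (inv_injective this).symm
      rw [prod_eq_zero (mem_univ i), mul_zero]
      rw [hη, if_neg hi]
  simp only [mul_sum] at h1
  rw [sum_comm, sum_congr rfl (fun τ _ => h2 τ)] at h1
  simpa using h1

theorem g2 : S_g2 := by
  intro n r p X hX hX3 htr hrp hrn M hM hT hne
  obtain ⟨ξ, hξ, hξX⟩ := exists_xi X hX hX3 htr hrp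
  obtain ⟨η, hη⟩ := exists_dual ξ hξ
  obtain ⟨P, hP1, hP2, hP3⟩ := exists_proj M
  have hcomm := proj_comm M P hP1 hP3 hM
  obtain ⟨c, hc⟩ := good_span (by omega) (kr P) (kr_span P hcomm (by omega))
  have hPc : ∀ s, Trl s → ∀ K, P s K = ∑ τ : Equiv.Perm (Fin r), c τ * s (fun i => K (τ i)) := by
    intro s hs K
    rw [P_apply, hc s hs K]
  have hd := act_dec X hX ξ hξX
  have hdt := dec_trl X hX ξ hξX
  refine ⟨P (dec ξ), hP1 _, ?_, ?_⟩
  · intro h0
    have hc0 : ∀ ρ, c ρ = 0 := by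
      apply coef_zero ξ η hη c
      intro K
      rw [← hPc _ hdt K, h0]
      rfl
    apply hne
    rw [Submodule.eq_bot_iff]
    intro m hm
    rw [← hP2 m hm]
    funext K
    rw [hPc m (hT m hm) K]
    simp [hc0]
  · rw [← hcomm X hX, hd, map_smul]

end

end Pool.Agent.W410.PG.G2
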