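import Pool.Agent.W544.PG.Defs3
import Pool.Agent.W417.K3.FftA

/-! Project PG part 2, part (G2): linear algebra. -/

set_option autoImplicit false

open Matrix Finset Module

namespace Pool.Agent.W410.PG.G2

open Pool.Agent.W544.PG

noncomputable section

variable {n r : ℕ}

/-- hermitian product of forms -/
def ip (s s' : (Fin r → Fin n) → ℂ) : ℂ := ∑ J, (starRingEnd ℂ) (s J) * s' J

lemma ip_self (s : (Fin r → Fin n) → ℂ) (h : ip s s = 0) : s = 0 := by
  unfold ip at h
  have h1 : ∑ J, ‖s J‖ ^ 2 = 0 := by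
    have : ((∑ J, ‖s J‖ ^ 2 : ℝ) : ℂ) = 0 := by
      rw [← h]
      push_cast
      apply sum_congr rfl
      intro J _
      rw [mul_comm, Complex.mul_conj, Complex.normSq_eq_norm_sq]
      push_cast
      rfl
    exact_mod_cast this
  funext J
  have h2 := (sum_eq_zero_iff_of_nonneg (fun J _ => sq_nonneg ‖s J‖)).1 h1 J (mem_univ J)
  simpa using h2

lemma ip_add (s a b : (Fin r → Fin n) → ℂ) : ip s (a + b) = ip s a + ip s b := by
  unfold ip
  rw [← sum_add_distrib]
  exact sum_congr rfl fun J _ => by simp [mul_add]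

lemma swap_sum (j : Fin r) (G : (Fin r → Fin n) → Fin n → ℂ) :
    ∑ J, ∑ l, G J l = ∑ J : Fin r → Fin n, ∑ l, G (Function.update J j l) (J j) := by
  let e : ((Fin r → Fin n) × Fin n) ≃ ((Fin r → Fin n) × Fin n) :=
    { toFun := fun x => (Function.update x.1 j x.2, x.1 j)
      invFun := fun x => (Function.update x.1 j x.2, x.1 j)
      left_inv := by
        rintro ⟨J, l⟩
        simp
      right_inv := by
        rintro ⟨J, l⟩
        simp }
  have h1 := Equiv.sum_comp e (fun x => G x.1 x.2)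
  rw [Fintype.sum_prod_type, Fintype.sum_prod_type] at h1
  exact h1.symm

lemma act_adj (Z : Matrix (Fin n) (Fin n) ℂ) (s s' : (Fin r → Fin n) → ℂ) :
    ip s (act Z s') = ip (act Zᴴ s) s' := by
  unfold ip act
  simp only [mul_sum, map_sum, sum_mul, map_mul]
  rw [sum_comm]
  conv_rhs => rw [sum_comm]
  apply sum_congr rfl
  intro j _
  rw [swap_sum j]
  apply sum_congr rfl
  intro J _
  apply sum_congr rfl
  intro l _
  rw [Matrix.conjTranspose_apply]
  simp only [Function.update_self, Function.update_idem, Function.update_eq_self]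
  simp only [RCLike.star_def, Complex.conj_conj]
  ring

lemma act_sub (Z : Matrix (Fin n) (Fin n) ℂ) (a b : (Fin r → Fin n) → ℂ) :
    act Z (a - b) = act Z a - act Z b := by
  funext J
  simp only [act, Pi.sub_apply, mul_sub, sum_sub_distrib]

lemma exists_proj (M : Submodule ℂ ((Fin r → Fin n) → ℂ)) :
    ∃ P : ((Fin r → Fin n) → ℂ) →ₗ[ℂ] ((Fin r → Fin n) → ℂ),
      (∀ s, P s ∈ M) ∧ (∀ s ∈ M, P s = s) ∧ ∀ m ∈ M, ∀ s, ip m (s - P s) = 0 := by
  let e : EuclideanSpace ℂ (Fin r → Fin n) ≃ₗ[ℂ] ((Fin r → Fin n) → ℂ) :=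
    WithLp.linearEquiv 2 ℂ ((Fin r → Fin n) → ℂ)
  let M' : Submodule ℂ (EuclideanSpace ℂ (Fin r → Fin n)) := M.comap e.toLinearMap
  refine ⟨e.toLinearMap ∘ₗ (M'.starProjection : EuclideanSpace ℂ (Fin r → Fin n) →ₗ[ℂ] _) ∘ₗ
    e.symm.toLinearMap, ?_, ?_, ?_⟩
  · intro s
    have h1 : M'.starProjection (e.symm s) ∈ M' := Submodule.starProjection_apply_mem M' _
    exact h1
  · intro s hs
    have h1 : e.symm s ∈ M' := by
      show e (e.symm s) ∈ M
      rw [LinearEquiv.apply_symm_apply]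
      exact hs
    have h2 : M'.starProjection (e.symm s) = e.symm s :=
      Submodule.starProjection_eq_self_iff.2 h1
    show e (M'.starProjection (e.symm s)) = s
    rw [h2, LinearEquiv.apply_symm_apply]
  · intro m hm s
    have h1 : e.symm m ∈ M' := by
      show e (e.symm m) ∈ M
      rw [LinearEquiv.apply_symm_apply]
      exact hm
    have h2 := Submodule.sub_starProjection_mem_orthogonal (K := M') (e.symm s)
    have h3 := (Submodule.mem_orthogonal M' _).1 h2 _ h1
    rw [EuclideanSpace.inner_eq_star_dotProduct] at h3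
    unfold ip
    rw [dotProduct] at h3
    rw [← h3]
    apply sum_congr rfl
    intro J _
    rw [mul_comm]
    rfl

lemma proj_comm (M : Submodule ℂ ((Fin r → Fin n) → ℂ))
    (P : ((Fin r → Fin n) → ℂ) →ₗ[ℂ] ((Fin r → Fin n) → ℂ)) (h1 : ∀ s, P s ∈ M)
    (h3 : ∀ m ∈ M, ∀ s, ip m (s - P s) = 0)
    (hM : ∀ Z : Matrix (Fin n) (Fin n) ℂ, Zᵀ = -Z → ∀ s ∈ M, act Z s ∈ M)
    (Z : Matrix (Fin n) (Fin n) ℂ) (hZ : Zᵀ = -Z) (s : (Fin r → Fin n) → ℂ) :
    P (act Z s) = act Z (P s) := by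
  have hZ' : (Zᴴ)ᵀ = -Zᴴ := by
    ext i j
    have := congrFun (congrFun hZ i) j
    simp only [Matrix.transpose_apply, Matrix.neg_apply] at this
    simp [this, Matrix.conjTranspose_apply]
  set d := P (act Z s) - act Z (P s) with hd
  have hdM : d ∈ M := M.sub_mem (h1 _) (hM Z hZ _ (h1 _))
  have h4 : act Z s - P (act Z s) + d = act Z (s - P s) := by
    rw [act_sub, hd]
    abel
  have h5 : ip d (act Z (s - P s)) = 0 := by
    rw [act_adj]
    exact h3 _ (hM _ hZ' _ hdM) s
  rw [← h4, ip_add, h3 d hdM, zero_add] at h5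
  have h6 := ip_self d h5
  rw [hd] at h6
  exact sub_eq_zero.1 h6

end

end Pool.Agent.W410.PG.G2
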