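import Pool.Agent.W410.PG.G2a

/-! Project PG part 2, part (G2): kernels of invariant operators. -/

set_option autoImplicit false

open Matrix Finset Module

namespace Pool.Agent.W410.PG.G2

open Pool.Agent.W544.PG
open Pool.Agent.W417.K3.Fft (Gens Rel Dep DD key)

noncomputable section

variable {n r : ℕ}

/-- kernel of an operator on forms -/
def kr (P : ((Fin r → Fin n) → ℂ) →ₗ[ℂ] ((Fin r → Fin n) → ℂ)) (L : Fin (r + r) → Fin n) : ℂ :=
  P (Pi.single (fun i => L (Fin.castAdd r i)) 1) (fun i => L (Fin.natAdd r i))

lemma P_apply (P : ((Fin r → Fin n) → ℂ) →ₗ[ℂ] ((Fin r → Fin n) → ℂ))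
    (s : (Fin r → Fin n) → ℂ) (K : Fin r → Fin n) :
    P s K = ∑ J, s J * kr P (Fin.append J K) := by
  have h1 : s = ∑ J, s J • (Pi.single J (1 : ℂ) : (Fin r → Fin n) → ℂ) := by
    funext J'
    rw [Finset.sum_apply, sum_eq_single J']
    · simp
    · intro J _ hJ
      simp [hJ.symm]
    · simp
  conv_lhs => rw [h1]
  rw [map_sum, Finset.sum_apply]
  apply sum_congr rfl
  intro J _
  rw [map_smul, Pi.smul_apply, smul_eq_mul]
  unfold kr
  simp only [Fin.append_left, Fin.append_right]

lemma act_single (Z : Matrix (Fin n) (Fin n) ℂ) (J : Fin r → Fin n) :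
    act Z (Pi.single J (1 : ℂ)) =
      ∑ i, ∑ m, Z (J i) m • (Pi.single (Function.update J i m) (1 : ℂ) :
        (Fin r → Fin n) → ℂ) := by
  funext J'
  unfold act
  rw [Finset.sum_apply]
  apply sum_congr rfl
  intro j _
  rw [Finset.sum_apply, sum_eq_single (J j), sum_eq_single (J' j)]
  · rw [Pi.smul_apply, smul_eq_mul]
    congr 1
    rw [Pi.single_apply, Pi.single_apply]
    have h : Function.update J' j (J j) = J ↔ J' = Function.update J j (J' j) := by
      constructor
      · intro h
        rw [← h]
        simp
      · intro h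
        rw [h]
        simp
    by_cases h' : Function.update J' j (J j) = J
    · rw [if_pos h', if_pos (h.1 h')]
    · rw [if_neg h', if_neg (fun h2 => h' (h.2 h2))]
  · intro m _ hm
    rw [Pi.smul_apply, Pi.single_apply, if_neg, smul_zero]
    intro h
    apply hm
    rw [h]
    simp
  · simp
  · intro l _ hl
    rw [Pi.single_apply, if_neg, mul_zero]
    intro h
    apply hl
    rw [← h]
    simp
  · simp


lemma kr_inv (P : ((Fin r → Fin n) → ℂ) →ₗ[ℂ] ((Fin r → Fin n) → ℂ))
    (hc : ∀ Z : Matrix (Fin n) (Fin n) ℂ, Zᵀ = -Z → ∀ s, P (act Z s) = act Z (P s))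
    (Z : Matrix (Fin n) (Fin n) ℂ) (hZ : Zᵀ = -Z) (L : Fin (r + r) → Fin n) :
    ∑ j, ∑ l, Z l (L j) * kr P (Function.update L j l) = 0 := by
  have hZ' : ∀ a b, Z a b = - Z b a := by
    intro a b
    have := congrFun (congrFun hZ b) a
    simpa using this
  set J : Fin r → Fin n := fun i => L (Fin.castAdd r i) with hJ
  set K : Fin r → Fin n := fun i => L (Fin.natAdd r i) with hK
  have e1 : ∀ (i : Fin r) (l : Fin n), kr P (Function.update L (Fin.castAdd r i) l) =
      P (Pi.single (Function.update J i l) 1) K := by
    intro i l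
    have hA : (fun i' => Function.update L (Fin.castAdd r i) l (Fin.castAdd r i')) =
        Function.update J i l := by
      funext i'
      by_cases h : i' = i
      · subst h; simp
      · rw [Function.update_of_ne h, Function.update_of_ne]
        intro h2
        exact h (Fin.castAdd_injective _ _ h2)
    have hB : (fun i' => Function.update L (Fin.castAdd r i) l (Fin.natAdd r i')) = K := by
      funext i'
      rw [Function.update_of_ne]
      intro h2
      have := congrArg Fin.val h2
      simp at this
      omega
    unfold kr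
    rw [hA, hB]
  have e2 : ∀ (i : Fin r) (l : Fin n), kr P (Function.update L (Fin.natAdd r i) l) =
      P (Pi.single J 1) (Function.update K i l) := by
    intro i l
    have hA : (fun i' => Function.update L (Fin.natAdd r i) l (Fin.castAdd r i')) = J := by
      funext i'
      rw [Function.update_of_ne]
      intro h2
      have := congrArg Fin.val h2
      simp at this
      omega
    have hB : (fun i' => Function.update L (Fin.natAdd r i) l (Fin.natAdd r i')) =
        Function.update K i l := by
      funext i'
      by_cases h : i' = i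
      · subst h; simp
      · rw [Function.update_of_ne h, Function.update_of_ne]
        intro h2
        exact h (Fin.natAdd_injective _ _ h2)
    unfold kr
    rw [hA, hB]
  rw [Fin.sum_univ_add]
  simp only [e1, e2]
  have e3 : ∑ i, ∑ l, Z l (K i) * P (Pi.single J 1) (Function.update K i l) =
      act Z (P (Pi.single J 1)) K := rfl
  have e4 : ∑ i, ∑ l, Z l (L (Fin.natAdd r i)) * P (Pi.single J 1) (Function.update K i l) =
      act Z (P (Pi.single J 1)) K := e3
  rw [e4, ← hc Z hZ, act_single, map_sum, Finset.sum_apply, ← sum_add_distrib]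
  apply sum_eq_zero
  intro i _
  rw [map_sum, Finset.sum_apply, ← sum_add_distrib]
  apply sum_eq_zero
  intro l _
  rw [map_smul, Pi.smul_apply, smul_eq_mul, hZ' l]
  show -Z (J i) l * _ + _ = _
  ring

lemma kr_span (P : ((Fin r → Fin n) → ℂ) →ₗ[ℂ] ((Fin r → Fin n) → ℂ))
    (hc : ∀ Z : Matrix (Fin n) (Fin n) ℂ, Zᵀ = -Z → ∀ s, P (act Z s) = act Z (P s))
    (hr : r + r < n) :
    kr P ∈ Submodule.span ℂ (Gens (n := n) (k := r + r) (fun _ => (1 : ℂ)) univ) := by
  apply key (fun _ => (1 : ℂ)) (fun _ => one_ne_zero) univ (by simpa using hr)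
  · intro J J' h
    have : J = J' := funext fun j => h j (mem_univ _)
    rw [this]
  · intro a b hab J
    obtain ⟨Z, hZdef⟩ : ∃ Z : Matrix (Fin n) (Fin n) ℂ, ∀ l m, Z l m =
      (if l = b ∧ m = a then 1 else 0) - (if l = a ∧ m = b then 1 else 0) :=
      ⟨Matrix.of fun l m => (if l = b ∧ m = a then 1 else 0) - (if l = a ∧ m = b then 1 else 0),
        fun _ _ => rfl⟩
    have hZ : Zᵀ = -Z := by
      ext l m
      rw [Matrix.transpose_apply, Matrix.neg_apply, hZdef, hZdef]
      by_cases c1 : l = a <;> by_cases c2 : l = b <;> by_cases c3 : m = a <;>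
        by_cases c4 : m = b <;> simp [c1, c2, c3, c4, hab, hab.symm]
    have h := kr_inv P hc Z hZ J
    have e : ∀ j, ∑ l, Z l (J j) * kr P (Function.update J j l) =
        (if J j = a then kr P (Function.update J j b) else 0) -
        (if J j = b then kr P (Function.update J j a) else 0) := by
      intro j
      simp only [hZdef, sub_mul, sum_sub_distrib]
      congr 1
      · rw [sum_eq_single b]
        · simp
        · intro l _ hl
          simp [hl]
        · simp
      · rw [sum_eq_single a]
        · simp
        · intro l _ hl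
          simp [hl]
        · simp
    rw [sum_congr rfl (fun j _ => e j), sum_sub_distrib] at h
    rw [sum_filter, sum_filter]
    simp only [one_mul]
    exact sub_eq_zero.1 h

lemma avg (a : Fin r) (G : (Fin r → Fin n) → ℂ) :
    ∑ J, ∑ x, G (Function.update J a x) = n * ∑ J, G J := by
  rw [← swap_sum a (fun J _ => G J)]
  simp [mul_sum]

lemma trace_zero (hn : n ≠ 0) (s : (Fin r → Fin n) → ℂ) (hs : Trl s) (a b : Fin r) (hab : a ≠ b)
    (h : (Fin r → Fin n) → ℂ)
    (hh : ∀ J x y, h (Function.update (Function.update J a x) b y) = h J) :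
    ∑ J, s J * ((if J a = J b then 1 else 0) * h J) = 0 := by
  set G : (Fin r → Fin n) → ℂ := fun J => s J * ((if J a = J b then 1 else 0) * h J) with hG
  have h1 : ∑ J : Fin r → Fin n, ∑ x, ∑ y,
      G (Function.update (Function.update J a x) b y) = n * (n * ∑ J, G J) := by
    rw [avg a (fun J => ∑ y, G (Function.update J b y)), avg b G]
  have h2 : ∀ J : Fin r → Fin n, ∑ x, ∑ y,
      G (Function.update (Function.update J a x) b y) = 0 := by
    intro J
    have h3 : ∀ x, ∑ y, G (Function.update (Function.update J a x) b y) =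
        s (Function.update (Function.update J a x) b x) * h J := by
      intro x
      rw [sum_eq_single x]
      · simp only [hG, hh]
        rw [Function.update_self, Function.update_of_ne hab, Function.update_self]
        simp
      · intro y _ hy
        simp only [hG]
        rw [Function.update_self, Function.update_of_ne hab, Function.update_self]
        simp [hy.symm]
      · simp
    rw [sum_congr rfl (fun x _ => h3 x), ← sum_mul, hs a b hab J, zero_mul]
  rw [sum_congr rfl (fun J _ => h2 J), sum_const_zero] at h1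
  have hn' : (n : ℂ) ≠ 0 := by exact_mod_cast hn
  have h4 := h1.symm
  rw [mul_eq_zero, mul_eq_zero] at h4
  rcases h4 with h4 | h4 | h4
  · exact absurd h4 hn'
  · exact absurd h4 hn'
  · exact h4

/-- forms acting on traceless forms through permutations -/
def Good (f : (Fin (r + r) → Fin n) → ℂ) : Prop :=
  ∃ c : Equiv.Perm (Fin r) → ℂ, ∀ s : (Fin r → Fin n) → ℂ, Trl s → ∀ K : Fin r → Fin n,
    ∑ J, s J * f (Fin.append J K) = ∑ τ : Equiv.Perm (Fin r), c τ * s (fun i => K (τ i))

lemma good_gen (hn : n ≠ 0) (f : (Fin (r + r) → Fin n) → ℂ)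
    (hf : f ∈ Gens (n := n) (k := r + r) (fun _ => (1 : ℂ)) univ) : Good f := by
  obtain ⟨σ, hσ, hσ1, -, hfσ⟩ := hf
  have hσ2 : ∀ j, σ j ≠ j := fun j => hσ1 j (mem_univ _)
  have hinj : ∀ i j, σ i = σ j → i = j := by
    intro i j hij
    rw [← hσ i, hij, hσ]
  by_cases hA : ∃ a b : Fin r, σ (Fin.castAdd r a) = Fin.castAdd r b
  · -- a pair of source variables
    obtain ⟨a, b, hab, hlt⟩ : ∃ a b : Fin r, σ (Fin.castAdd r a) = Fin.castAdd r b ∧ a < b := by
      obtain ⟨a, b, hab⟩ := hA
      rcases lt_trichotomy a b with h | h | h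
      · exact ⟨a, b, hab, h⟩
      · subst h
        exact absurd hab (hσ2 _)
      · exact ⟨b, a, by rw [← hab, hσ], h⟩
    refine ⟨0, ?_⟩
    intro s hs K
    simp only [Pi.zero_apply, zero_mul, sum_const_zero]
    set h : (Fin r → Fin n) → ℂ := fun J =>
      ∏ j ∈ (univ.filter (fun j : Fin (r + r) => j < σ j)).erase (Fin.castAdd r a),
        DD (fun _ => (1 : ℂ)) (Fin.append J K j) (Fin.append J K (σ j)) with hhdef
    have hba : σ (Fin.castAdd r b) = Fin.castAdd r a := by rw [← hab, hσ]
    have hfe : ∀ J, f (Fin.append J K) = (if J a = J b then 1 else 0) * h J := by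
      intro J
      rw [hfσ, ← mul_prod_erase _ _ (show Fin.castAdd r a ∈
        univ.filter (fun j : Fin (r + r) => j < σ j) from by
          rw [mem_filter, hab]
          exact ⟨mem_univ _, Fin.lt_def.2 (Fin.lt_def.1 hlt)⟩)]
      congr 1
      rw [hab]
      simp [DD, Fin.append_left]
    simp only [hfe]
    apply trace_zero hn s hs a b hlt.ne
    intro J x y
    simp only [hhdef]
    apply prod_congr rfl
    intro j hj
    rw [mem_erase, mem_filter] at hj
    have hja : j ≠ Fin.castAdd r a := hj.1
    have hjb : j ≠ Fin.castAdd r b := by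
      rintro rfl
      have h2 := hj.2.2
      rw [hba] at h2
      have : b < a := Fin.lt_def.2 (Fin.lt_def.1 h2)
      exact lt_asymm this hlt
    have hja' : σ j ≠ Fin.castAdd r a := by
      intro h2
      rw [← hba] at h2
      exact hjb (hinj _ _ h2)
    have hjb' : σ j ≠ Fin.castAdd r b := by
      intro h2
      rw [← hab] at h2
      exact hja (hinj _ _ h2)
    have hap : ∀ j : Fin (r + r), j ≠ Fin.castAdd r a → j ≠ Fin.castAdd r b →
        Fin.append (Function.update (Function.update J a x) b y) K j = Fin.append J K j := by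
      intro j
      refine Fin.addCases (fun i => ?_) (fun i => ?_) j
      · intro h1 h2
        rw [Fin.append_left, Fin.append_left, Function.update_of_ne, Function.update_of_ne]
        · rintro rfl; exact h1 rfl
        · rintro rfl; exact h2 rfl
      · intro _ _
        rw [Fin.append_right, Fin.append_right]
    rw [hap j hja hjb, hap (σ j) hja' hjb']
  · push Not at hA
    have hB : ∀ i : Fin r, ∃ t : Fin r, σ (Fin.castAdd r i) = Fin.natAdd r t := by
      intro i
      have : ∀ j : Fin (r + r), σ (Fin.castAdd r i) = j → ∃ t : Fin r,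
          σ (Fin.castAdd r i) = Fin.natAdd r t := by
        intro j
        refine Fin.addCases (fun i' => ?_) (fun i' => ?_) j
        · intro h; exact absurd h (hA i i')
        · intro h; exact ⟨i', h⟩
      exact this _ rfl
    choose t ht using hB
    have htinj : Function.Injective t := by
      intro i i' h
      have h2 : σ (Fin.castAdd r i) = σ (Fin.castAdd r i') := by rw [ht, ht, h]
      exact Fin.castAdd_injective _ _ (hinj _ _ h2)
    have htbij : Function.Bijective t := Finite.injective_iff_bijective.1 htinj
    let τ : Equiv.Perm (Fin r) := Equiv.ofBijective t htbij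
    refine ⟨Pi.single τ 1, ?_⟩
    intro s _ K
    have hfe : ∀ J, f (Fin.append J K) = ∏ i, (if J i = K (t i) then (1 : ℂ) else 0) := by
      intro J
      rw [hfσ, prod_filter, Fin.prod_univ_add]
      have e2 : (∏ i : Fin r, if Fin.natAdd r i < σ (Fin.natAdd r i) then
          DD (fun _ => (1 : ℂ)) (Fin.append J K (Fin.natAdd r i))
            (Fin.append J K (σ (Fin.natAdd r i))) else 1) = 1 := by
        apply prod_eq_one
        intro i _
        obtain ⟨i', rfl⟩ := htbij.2 i
        rw [if_neg]
        rw [← ht i', hσ, ht i']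
        intro h
        have := Fin.lt_def.1 h
        simp at this
        omega
      rw [e2, mul_one]
      apply prod_congr rfl
      intro i _
      rw [ht i, if_pos]
      · rw [Fin.append_left, Fin.append_right]
        rfl
      · rw [Fin.lt_def]
        simp
        omega
    simp only [hfe]
    rw [sum_eq_single (fun i => K (t i)), sum_eq_single τ]
    · simp [τ]
    · intro τ' _ hτ'
      rw [Pi.single_eq_of_ne hτ', zero_mul]
    · simp
    · intro J _ hJ
      obtain ⟨i, hi⟩ := Function.ne_iff.1 hJ
      rw [prod_eq_zero (mem_univ i), mul_zero]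
      rw [if_neg hi]
    · simp

lemma good_span (hn : n ≠ 0) (f : (Fin (r + r) → Fin n) → ℂ)
    (hf : f ∈ Submodule.span ℂ (Gens (n := n) (k := r + r) (fun _ => (1 : ℂ)) univ)) :
    Good f := by
  induction hf using Submodule.span_induction with
  | mem f hf => exact good_gen hn f hf
  | zero => exact ⟨0, fun s _ K => by simp⟩
  | add f g _ _ hf hg =>
    obtain ⟨c, hc⟩ := hf
    obtain ⟨c', hc'⟩ := hg
    refine ⟨c + c', fun s hs K => ?_⟩
    simp only [Pi.add_apply, mul_add, add_mul, sum_add_distrib, hc s hs K, hc' s hs K]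
  | smul a f _ hf =>
    obtain ⟨c, hc⟩ := hf
    refine ⟨a • c, fun s hs K => ?_⟩
    simp only [Pi.smul_apply, smul_eq_mul, mul_assoc]
    rw [← mul_sum, ← hc s hs K, mul_sum]
    apply sum_congr rfl
    intro J _
    ring

end

end Pool.Agent.W410.PG.G2
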